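import Pool.Agent.R595.SK.Image

set_option autoImplicit false

namespace Pool.Agent.R595.SK

open Cardinal Ordinal Pool.Agent.R595.NST Topology Set

theorem OmegaBounded.ultConv {Y : Type} [TopologicalSpace Y] (h : OmegaBounded Y) : UltConv Y := by
  rintro w ⟨B, hB, hBc⟩
  obtain ⟨x, -, hx⟩ := (h B hBc).ultrafilter_le_nhds w (by
    rw [Filter.le_principal_iff]
    exact Filter.mem_of_superset hB subset_closure)
  exact ⟨x, hx⟩

theorem mk_SS : #(Set (Set ℕ)) = (2 : Cardinal.{0}) ^ ((2 : Cardinal.{0}) ^ ℵ₀) := by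
  rw [Cardinal.mk_set, Cardinal.mk_set, Cardinal.mk_nat]

theorem mk_SP0 : #SP0 ≤ #(Set (Set ℕ)) := by
  have h1 : Cardinal.lift.{1} #SP0 ≤ Cardinal.lift.{1} (ℵ_ 2 : Cardinal.{0}) := by
    have h2 : Cardinal.lift.{1} #SP0 = #SP := by
      have := Cardinal.lift_mk_eq'.2 ⟨(eSP.toEquiv.symm : SP0 ≃ SP)⟩
      rwa [Cardinal.lift_id'.{0, 1}] at this
    rw [h2]
    have h3 : #SP ≤ #(Set.Iio (ω_ 2 : Ordinal.{0})) :=
      Cardinal.mk_le_of_injective (f := fun x : SP => (⟨x.1, x.2.1⟩ :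
        Set.Iio (ω_ 2 : Ordinal.{0}))) (fun a b h => Subtype.ext (congrArg (fun z => z.1) h))
    refine h3.trans ?_
    rw [Cardinal.mk_Iio_ordinal, Ordinal.card_omega]
  rw [Cardinal.lift_le] at h1
  refine h1.trans ?_
  have h3 : (ℵ_ 2 : Cardinal.{0}) = Order.succ ℵ₁ := by
    rw [Cardinal.succ_aleph, one_add_one_eq_two]
  rw [h3, mk_SS]
  have h4 : (ℵ₁ : Cardinal.{0}) ≤ 2 ^ ℵ₀ := Cardinal.aleph_one_le_continuum
  exact Order.succ_le_of_lt (h4.trans_lt (Cardinal.cantor _))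

theorem image_thm (Y : Type) [TopologicalSpace Y] [T3Space Y] (hY : OmegaBounded Y)
    (hc : #Y ≤ (2 : Cardinal.{0}) ^ ((2 : Cardinal.{0}) ^ ℵ₀)) :
    ∃ (X : Type) (_ : TopologicalSpace X) (f : X → Y), Staeckel X ∧ Continuous f ∧
      Function.Surjective f := by
  rw [← mk_SS] at hc
  obtain ⟨f, h1, h2⟩ := exists_lim_map Y hY.ultConv
  exact ⟨CU Y, inferInstance, f, staeckel_CU Y hc, h1, h2⟩

theorem range_thm (hF : FriedmanPrinciple) :
    ∃ (X Y : Type) (_ : TopologicalSpace X) (_ : TopologicalSpace Y) (f : X → Y),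
      Staeckel X ∧ T35Space Y ∧ Continuous f ∧ ¬ Staeckel (Set.range f) := by
  haveI := t5_SP0
  obtain ⟨X, tX, f, h1, h2, h3⟩ := image_thm SP0 ob_SP0 (mk_SS ▸ mk_SP0)
  refine ⟨X, SP0, tX, inferInstance, f, h1, t35_SP0, h2, fun h4 => ns_SP0 hF ?_⟩
  have e : SP0 ≃ₜ (Set.range f) :=
    (Homeomorph.Set.univ SP0).symm.trans (Homeomorph.setCongr h3.range_eq.symm)
  exact h4.of_homeo e

end Pool.Agent.R595.SK
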