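import Pool.Agent.R595.SK.Fin
import Pool.Agent.Y467.QP.Posp

set_option autoImplicit false

namespace Pool.Agent.R595.SK

open Cardinal Ordinal Pool.Agent.R595.NST Topology Set

universe u v

theorem exists_inj_choice {I X : Type u} (K : I → Set X) (h : ∀ i, #I ≤ #(K i)) :
    ∃ c : I → X, Function.Injective c ∧ ∀ i, c i ∈ K i := by
  classical
  obtain ⟨r, hwo, hr⟩ := Cardinal.ord_eq I
  have hseg : ∀ i : I, #{j // r j i} < #I := by
    intro i
    exact Cardinal.card_typein_lt i hr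
  have hex : ∀ (i : I) (g : ∀ j : I, r j i → X), ∃ x ∈ K i, ∀ j (hj : r j i), g j hj ≠ x := by
    intro i g
    by_contra hcon
    push Not at hcon
    have h1 : K i ⊆ range fun j : {j // r j i} => g j.1 j.2 := by
      intro x hx
      obtain ⟨j, hj, h2⟩ := hcon x hx
      exact ⟨⟨j, hj⟩, h2⟩
    exact absurd ((h i).trans ((Cardinal.mk_le_mk_of_subset h1).trans Cardinal.mk_range_le))
      (not_le_of_gt (hseg i))
  let c : I → X := hwo.wf.fix fun i g => Classical.choose (hex i g)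
  have hc : ∀ i, c i ∈ K i ∧ ∀ j, r j i → c j ≠ c i := by
    intro i
    have h2 : c i = Classical.choose (hex i fun j _ => c j) := hwo.wf.fix_eq _ i
    have h3 := Classical.choose_spec (hex i fun j _ => c j)
    rw [← h2] at h3
    exact h3
  refine ⟨c, ?_, fun i => (hc i).1⟩
  intro i j hij
  by_contra hne
  rcases trichotomous_of r i j with h1 | h1 | h1
  · exact (hc j).2 i h1 hij
  · exact hne h1
  · exact (hc i).2 j h1 hij.symm

/-- ultrafilters containing a countable set -/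
abbrev CU (D : Type) : Type := {u : Ultrafilter D // ∃ B ∈ u, B.Countable}

theorem mk_pow {μ : Cardinal.{0}} (hμ : μ = #(Set (Set ℕ))) : μ ^ ℵ₀ = μ := by
  rw [hμ, Cardinal.mk_set, ← Cardinal.power_mul]
  congr 1
  rw [Cardinal.mul_eq_left (Cardinal.infinite_iff.1 inferInstance) (Cardinal.infinite_iff.1
    inferInstance) Cardinal.aleph0_ne_zero]

theorem mk_CU (D : Type) (hD : #D ≤ #(Set (Set ℕ))) : #(CU D) ≤ #(Set (Set ℕ)) := by
  have h1 : #(Ultrafilter ℕ) ≤ #(Set (Set ℕ)) :=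
    Cardinal.mk_le_of_injective (f := fun w : Ultrafilter ℕ => {s : Set ℕ | s ∈ w})
      (fun a b h => Ultrafilter.ext fun s => by
        have h2 : s ∈ {s : Set ℕ | s ∈ a} ↔ s ∈ {s : Set ℕ | s ∈ b} := by rw [show
          {s : Set ℕ | s ∈ a} = {s : Set ℕ | s ∈ b} from h]
        exact h2)
  have h2 : #((ℕ → D) × Ultrafilter ℕ) ≤ #(Set (Set ℕ)) := by
    rw [Cardinal.mk_prod, Cardinal.lift_id, Cardinal.lift_id]
    have h3 : #(ℕ → D) ≤ #(Set (Set ℕ)) := by
      have h4 : #(ℕ → D) = #D ^ ℵ₀ := by simp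
      rw [h4]
      exact (Cardinal.power_le_power_right hD).trans (mk_pow rfl).le
    exact (mul_le_mul' h3 h1).trans (Cardinal.mul_eq_self (Cardinal.infinite_iff.1
      inferInstance)).le
  refine le_trans ?_ h2
  have h3 : ∀ u : CU D, ∃ q : (ℕ → D) × Ultrafilter ℕ, q.2.map q.1 = u.1 := by
    rintro ⟨w, B, hB, hBc⟩
    obtain ⟨b, hb⟩ := hBc.exists_eq_range (Ultrafilter.nonempty_of_mem hB)
    have h4 : (Filter.comap b (w : Filter D)).NeBot := by
      rw [Filter.comap_neBot_iff]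
      intro t ht
      obtain ⟨x, hx1, hx2⟩ := Ultrafilter.nonempty_of_mem (Filter.inter_mem ht hB)
      rw [hb] at hx2
      obtain ⟨n, rfl⟩ := hx2
      exact ⟨n, hx1⟩
    refine ⟨(b, Ultrafilter.of (Filter.comap b (w : Filter D))), ?_⟩
    refine Ultrafilter.coe_le_coe.1 ?_
    rw [Ultrafilter.coe_map]
    exact (Filter.map_mono (Ultrafilter.of_le _)).trans Filter.map_comap_le
  choose q hq using h3
  exact Cardinal.mk_le_of_injective (f := q) fun a b h => Subtype.ext (by rw [← hq a, ← hq b, h])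

theorem mem_ubind {D : Type} (p : Ultrafilter ℕ) (m : ℕ → Ultrafilter D) (s : Set D) :
    s ∈ p.bind m ↔ {n | s ∈ m n} ∈ p := Iff.rfl

/-- limits of sequences along ultrafilters -/
def cuLim {D : Type} (w : ℕ → CU D) (p : Ultrafilter ℕ) : CU D :=
  ⟨p.bind fun n => (w n).1, ⋃ n, Classical.choose (w n).2, by
    have h : ∀ n, Classical.choose (w n).2 ∈ (w n).1 := fun n =>
      (Classical.choose_spec (w n).2).1
    rw [mem_ubind]
    refine Filter.Eventually.of_forall fun n => ?_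
    exact Filter.mem_of_superset (h n) (subset_iUnion (fun n => Classical.choose (w n).2) n),
    countable_iUnion fun n => (Classical.choose_spec (w n).2).2⟩

theorem cuLim_inj {D : Type} (w : ℕ → CU D) (E : ℕ → Set D) (hE : ∀ n, E n ∈ (w n).1)
    (hE' : ∀ m n, m ≠ n → Disjoint (E m) (E n)) : Function.Injective (cuLim w) := by
  intro p q hpq
  have h1 : ∀ A : Set ℕ, {n | (⋃ m ∈ A, E m) ∈ (w n).1} = A := by
    intro A
    ext n
    constructor
    · intro h
      by_contra hn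
      have h2 : (⋃ m ∈ A, E m) ∩ E n ∈ (w n).1 := Filter.inter_mem h (hE n)
      obtain ⟨x, hx1, hx2⟩ := Ultrafilter.nonempty_of_mem h2
      rw [mem_iUnion₂] at hx1
      obtain ⟨m, hm, hxm⟩ := hx1
      have h3 : m ≠ n := by
        rintro rfl
        exact hn hm
      exact Set.disjoint_left.1 (hE' m n h3) hxm hx2
    · intro hn
      exact Filter.mem_of_superset (hE n) (subset_biUnion_of_mem (u := fun m => E m) hn)
  have h2 : ∀ (p : Ultrafilter ℕ) (A : Set ℕ), A ∈ p ↔ (⋃ m ∈ A, E m) ∈ (cuLim w p).1 := by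
    intro p A
    rw [show (cuLim w p).1 = p.bind fun n => (w n).1 from rfl, mem_ubind, h1]
  refine Ultrafilter.ext fun A => ?_
  rw [h2 p A, h2 q A, hpq]

theorem cuLim_mem {D : Type} (w : ℕ → CU D) (p : Ultrafilter ℕ) (F : Set (CU D))
    (hF : IsClosed F) (hw : ∀ n, w n ∈ F) : cuLim w p ∈ F := by
  by_contra hcon
  have h1 : Fᶜ ∈ 𝓝 (cuLim w p) := hF.isOpen_compl.mem_nhds hcon
  rw [nhds_subtype_eq_comap, Filter.mem_comap] at h1
  obtain ⟨V, hV, hVF⟩ := h1
  obtain ⟨U, ⟨A, rfl⟩, hA, hAV⟩ := ultrafilterBasis_is_basis.mem_nhds_iff.1 hV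
  have h2 : {n | A ∈ (w n).1} ∈ p := hA
  obtain ⟨n, hn⟩ := Ultrafilter.nonempty_of_mem h2
  exact hVF (show (w n).1 ∈ V from hAV hn) (hw n)

/-- every infinite closed set contains a copy of the space of ultrafilters on `ℕ` -/
theorem closed_seq {D : Type} (F : Set (CU D)) (hinf : F.Infinite) :
    ∃ (w : ℕ → CU D), (∀ n, w n ∈ F) ∧ Function.Injective (cuLim w) := by
  haveI : Infinite F := hinf.to_subtype
  obtain ⟨f, hf⟩ := exists_topology_isEmbedding_nat F
  have h1 : Topology.IsEmbedding fun n => ((f n).1).1 :=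
    Topology.IsEmbedding.subtypeVal.comp (Topology.IsEmbedding.subtypeVal.comp hf)
  have h2 : ∀ n, ∃ A : Set D, A ∈ ((f n).1).1 ∧ ∀ m, m ≠ n → A ∉ ((f m).1).1 := by
    intro n
    have h3 : ({n} : Set ℕ) ∈ 𝓝 n := (isOpen_discrete _).mem_nhds rfl
    rw [h1.isInducing.nhds_eq_comap, Filter.mem_comap] at h3
    obtain ⟨V, hV, hVn⟩ := h3
    obtain ⟨U, ⟨A, rfl⟩, hA, hAV⟩ := ultrafilterBasis_is_basis.mem_nhds_iff.1 hV
    exact ⟨A, hA, fun m hm hAm => hm (hVn (show ((f m).1).1 ∈ V from hAV hAm))⟩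
  choose A hA hA' using h2
  refine ⟨fun n => (f n).1, fun n => (f n).2, ?_⟩
  refine cuLim_inj _ (fun n => A n \ ⋃ m ∈ Iio n, A m) ?_ ?_
  · intro n
    have h4 : (⋃ m ∈ Iio n, A m) ∉ ((f n).1).1 := by
      rw [Ultrafilter.finite_biUnion_mem_iff (finite_Iio n)]
      rintro ⟨m, hm, h4⟩
      exact hA' m n (ne_of_gt hm) h4
    rw [← Ultrafilter.compl_mem_iff_notMem] at h4
    exact Filter.inter_mem (hA n) h4
  · intro m n hmn
    rcases lt_or_gt_of_ne hmn with h | h
    · rw [Set.disjoint_left]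
      intro x hx1 hx2
      exact hx2.2 (mem_iUnion₂.2 ⟨m, h, hx1.1⟩)
    · rw [Set.disjoint_left]
      intro x hx1 hx2
      exact hx1.2 (mem_iUnion₂.2 ⟨n, h, hx2.1⟩)

theorem bernstein (D : Type) (hD : #D ≤ #(Set (Set ℕ))) :
    ∃ A : Set (CU D), ∀ F : Set (CU D), IsClosed F → F.Infinite →
      (F ∩ A).Nonempty ∧ (F ∩ Aᶜ).Nonempty := by
  classical
  let I : Type := {w : ℕ → CU D // Function.Injective (cuLim w)} × Bool
  have hI : #I ≤ #(Set (Set ℕ)) := by
    have h1 : #{w : ℕ → CU D // Function.Injective (cuLim w)} ≤ #(Set (Set ℕ)) := by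
      refine (Cardinal.mk_subtype_le _).trans ?_
      have h4 : #(ℕ → CU D) = #(CU D) ^ ℵ₀ := by simp
      rw [h4]
      exact (Cardinal.power_le_power_right (mk_CU D hD)).trans (mk_pow rfl).le
    rw [Cardinal.mk_prod, Cardinal.lift_id, Cardinal.lift_id]
    refine (mul_le_mul' h1 (?_ : #Bool ≤ #(Set (Set ℕ)))).trans (Cardinal.mul_eq_self
      (Cardinal.infinite_iff.1 inferInstance)).le
    exact (Cardinal.mk_le_aleph0 (α := Bool)).trans (Cardinal.infinite_iff.1 inferInstance)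
  obtain ⟨c, hc1, hc2⟩ := exists_inj_choice (I := I) (X := CU D)
    (fun i => range (cuLim i.1.1)) (by
      intro i
      refine hI.trans ?_
      rw [Cardinal.mk_range_eq _ i.1.2]
      obtain ⟨U, hU, -⟩ := Pool.Agent.Y467.QP.Posp.exists_free
      exact Cardinal.mk_le_of_injective hU)
  refine ⟨{x | ∃ w, c (w, true) = x}, fun F hF hinf => ?_⟩
  obtain ⟨w, hw1, hw2⟩ := closed_seq F hinf
  constructor
  · obtain ⟨p, hp⟩ := hc2 (⟨w, hw2⟩, true)
    refine ⟨c (⟨w, hw2⟩, true), ?_, ⟨w, hw2⟩, rfl⟩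
    rw [← hp]
    exact cuLim_mem w p F hF hw1
  · obtain ⟨p, hp⟩ := hc2 (⟨w, hw2⟩, false)
    refine ⟨c (⟨w, hw2⟩, false), ?_, ?_⟩
    · rw [← hp]
      exact cuLim_mem w p F hF hw1
    · rintro ⟨w', hw'⟩
      have h3 := congrArg Prod.snd (hc1 hw')
      exact Bool.noConfusion h3

/-- The space of the ultrafilters containing a countable set is Staeckel-compact. -/
theorem staeckel_CU (D : Type) (hD : #D ≤ #(Set (Set ℕ))) : Staeckel (CU D) := by
  classical
  obtain ⟨A, hA⟩ := bernstein D hD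
  obtain ⟨w, hw⟩ := exists_wellOrder (CU D)
  let r : CU D → CU D → Prop := fun x y => (x ∈ A ∧ y ∉ A) ∨ (x ∈ A ∧ y ∈ A ∧ x < y) ∨
    (x ∉ A ∧ y ∉ A ∧ y < x)
  have hr : IsStrictTotalOrder (CU D) r :=
    { irrefl := by
        intro a h
        rcases h with ⟨h1, h2⟩ | ⟨_, _, h3⟩ | ⟨_, _, h3⟩
        · exact h2 h1
        · exact lt_irrefl _ h3
        · exact lt_irrefl _ h3
      trans := by
        intro a b c h1 h2
        by_cases ha : a ∈ A <;> by_cases hb : b ∈ A <;> by_cases hc : c ∈ A <;>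
          simp only [r, ha, hb, hc, not_true, not_false_eq_true, true_and, and_true, false_and,
            and_false, or_false, false_or, or_true, true_or] at h1 h2 ⊢
        · exact h1.trans h2
        · exact h2.trans h1
      trichotomous := by
        intro a b h1 h2
        by_contra hne
        rcases lt_or_gt_of_ne hne with h3 | h3 <;>
        by_cases ha : a ∈ A <;> by_cases hb : b ∈ A <;>
          simp [r, ha, hb, h3] at h1 h2 }
  refine ⟨inferInstance, r, hr, fun F hF hne => ?_⟩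
  by_cases hfin : F.Finite
  · letI := linearOrderOfSTO r
    have hlt : ∀ a b : CU D, @LT.lt _ (linearOrderOfSTO r).toLT a b ↔ r a b := fun _ _ => Iff.rfl
    constructor
    · obtain ⟨a, ha, hmin⟩ := @Set.exists_min_image _ _ (linearOrderOfSTO r) F id hfin hne
      refine ⟨a, ha, fun b hb hba => (hlt a b).1 ?_⟩
      exact @lt_of_le_of_ne _ (linearOrderOfSTO r).toPartialOrder _ _ (hmin b hb) (Ne.symm hba)
    · obtain ⟨a, ha, hmax⟩ := @Set.exists_max_image _ _ (linearOrderOfSTO r) F id hfin hne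
      refine ⟨a, ha, fun b hb hba => (hlt b a).1 ?_⟩
      exact @lt_of_le_of_ne _ (linearOrderOfSTO r).toPartialOrder _ _ (hmax b hb) hba
  · obtain ⟨h1, h2⟩ := hA F hF hfin
    constructor
    · obtain ⟨a, ⟨haF, haA⟩, hmin⟩ := (wellFounded_lt (α := CU D)).has_min (F ∩ A) h1
      refine ⟨a, haF, fun b hb hba => ?_⟩
      by_cases hbA : b ∈ A
      · exact Or.inr (Or.inl ⟨haA, hbA, lt_of_le_of_ne (not_lt.1 (hmin b ⟨hb, hbA⟩))
          (Ne.symm hba)⟩)
      · exact Or.inl ⟨haA, hbA⟩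
    · obtain ⟨a, ⟨haF, haA⟩, hmin⟩ := (wellFounded_lt (α := CU D)).has_min (F ∩ Aᶜ) h2
      refine ⟨a, haF, fun b hb hba => ?_⟩
      by_cases hbA : b ∈ A
      · exact Or.inl ⟨hbA, haA⟩
      · exact Or.inr (Or.inr ⟨hbA, haA, lt_of_le_of_ne (not_lt.1 (hmin b ⟨hb, hbA⟩))
          (Ne.symm hba)⟩)

/-- limit map -/
theorem exists_lim_map (Y : Type) [TopologicalSpace Y] [T3Space Y] (hY : UltConv Y) :
    ∃ f : CU Y → Y, Continuous f ∧ Function.Surjective f := by
  choose f hf using fun u : CU Y => hY u.1 u.2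
  refine ⟨f, ?_, ?_⟩
  · rw [continuous_iff_continuousAt]
    intro u
    intro V hV
    obtain ⟨t, ht, htc, htV⟩ := exists_mem_nhds_isClosed_subset hV
    have h1 : t ∈ u.1 := hf u ht
    have h2 : {v : Ultrafilter Y | t ∈ v} ∈ 𝓝 u.1 := (ultrafilter_isOpen_basic t).mem_nhds h1
    have h3 : {v : CU Y | t ∈ v.1} ∈ 𝓝 u := by
      rw [nhds_subtype_eq_comap]
      exact Filter.preimage_mem_comap h2
    rw [Filter.mem_map]
    refine Filter.mem_of_superset h3 ?_
    intro v hv
    apply htV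
    rw [← htc.closure_eq, mem_closure_iff_ultrafilter]
    exact ⟨v.1, hv, hf v⟩
  · intro y
    have h1 : ({y} : Set Y) ∈ (pure y : Ultrafilter Y) := by
      rw [Ultrafilter.mem_pure]
      rfl
    refine ⟨⟨pure y, {y}, h1, countable_singleton y⟩, ?_⟩
    have h2 := hf ⟨pure y, {y}, h1, countable_singleton y⟩
    have h3 : ((pure y : Ultrafilter Y) : Filter Y) = pure y := rfl
    by_contra hne
    have h4 : {y}ᶜ ∈ 𝓝 (f ⟨pure y, {y}, h1, countable_singleton y⟩) :=
      isOpen_compl_singleton.mem_nhds hne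
    have h5 := h2 h4
    exact h5 rfl

end Pool.Agent.R595.SK
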